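import Pool.Agent.H732R2.SCG.Par

/-!
The number of cycles is even unless the order is a square
(a determinant identity over the integers).
-/

namespace H732R2.SCG

open Equiv.Perm Finset

set_option linter.unusedSectionVars false

variable {V : Type*} [Fintype V] [DecidableEq V]

lemma sum_inv {R : Type*} [CommRing R] (π : Equiv.Perm V) (f : V → R) (hf : ∀ x, f (π x) = f x) :
    ∑ x, f x = ∑ a : Orb π, (per π (rep π a) : R) * f (rep π a) := by
  rw [sum_cl π]
  refine Finset.sum_congr rfl (fun a _ => ?_)
  rw [← card_cl π a, ← nsmul_eq_mul, ← Finset.sum_const]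
  refine Finset.sum_congr rfl (fun x hx => ?_)
  simp only [Finset.mem_filter, Finset.mem_univ, true_and] at hx
  exact inv_of_cl π hf (by rw [hx, cl_rep])

namespace SC

variable {π : Equiv.Perm V} {M : V → V → ℤ} (h : SC π M)

include h

lemma eps_sq {p : V} (hp : π p = p) (x : V) :
    tw π (-1 : ℤˣ) x * tw π (-1 : ℤˣ) x = if x = p then (0 : ℤ) else 1 := by
  have h1 := tw_mul_inv π (-1 : ℤˣ) x
  rw [inv_neg, inv_one] at h1
  rw [h1]
  by_cases hx : x = p
  · have : per π x = 1 := by rw [hx]; exact (h.fixed_iff p).1 hp
    rw [this, if_neg (by decide), if_pos hx]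
  · rw [if_neg hx, if_pos]
    rcases h.per_cases x with h2 | ⟨k, hk⟩
    · exact absurd (h.fixed_unique ((h.fixed_iff x).2 h2) hp) hx
    · rw [hk, pow_mul]
      norm_num

/-- row sums over a cycle at the fixed point vanish -/
lemma fix_sum {p : V} (hp : π p = p) (b : Orb π) : ∑ y with cl π y = b, M p y = 0 := by
  have h1 := sum_cl_apply π b (fun y => M p y)
  have h2 : ∀ y, M p (π y) = - M p y := by
    intro y
    have := h.anti p y
    rwa [hp] at this
  simp only [h2, Finset.sum_neg_distrib] at h1
  linarith

lemma det_sq {p : V} (hp : π p = p) :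
    ∃ d : ℤ, d ^ 2 = (Fintype.card V : ℤ) ^ (Fintype.card (Orb π)) := by
  classical
  set ε : V → ℤ := fun x => tw π (-1 : ℤˣ) x with hε
  have hε1 : ∀ x, ε (π x) = - ε x := by
    intro x
    have := tw_apply π (-1 : ℤˣ) x
    simpa using this
  have hε2 : ∀ x, ε x * ε x = if x = p then (0 : ℤ) else 1 := h.eps_sq hp
  have hεp : ε p = 0 := by
    have := hε2 p
    rw [if_pos rfl] at this
    exact mul_self_eq_zero.1 this
  set T : V → V → ℤ := fun x y => ε x * M x y + (if x = p then 1 else 0) with hT
  have hT1 : ∀ x y, T (π x) (π y) = T x y := by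
    intro x y
    simp only [hT]
    rw [hε1, h.anti]
    have : (π x = p) ↔ (x = p) := by
      constructor
      · intro h1
        apply π.injective
        rw [h1, hp]
      · intro h1
        rw [h1, hp]
    simp only [this]
    ring
  have hT2 : ∀ y y', ∑ x, T x y * T x y' =
      (if y = y' then (Fintype.card V : ℤ) else 0) - M p y * M p y' := by
    intro y y'
    have h1 : ∀ x, T x y * T x y' = M y x * M x y' - (if x = p then M p y * M p y' else 0) +
        (if x = p then 1 else 0) := by
      intro x
      simp only [hT]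
      by_cases hx : x = p
      · subst hx
        rw [hεp, h.symm y x]
        simp
      · simp only [if_neg hx]
        rw [h.symm y x]
        have := hε2 x
        rw [if_neg hx] at this
        linear_combination (M x y * M x y') * this
    rw [Finset.sum_congr rfl (fun x _ => h1 x), Finset.sum_add_distrib, Finset.sum_sub_distrib,
      h.sq, Finset.sum_ite_eq' Finset.univ p, Finset.sum_ite_eq' Finset.univ p,
      if_pos (Finset.mem_univ _), if_pos (Finset.mem_univ _)]
    ring
  set w : Orb π → V → ℤ := fun b x => ∑ y with cl π y = b, T x y with hw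
  have hw1 : ∀ b x, w b (π x) = w b x := by
    intro b x
    simp only [hw]
    rw [← sum_cl_apply π b (fun y => T (π x) y)]
    exact Finset.sum_congr rfl (fun y _ => hT1 x y)
  have hw2 : ∀ b b', ∑ x, w b x * w b' x =
      if b = b' then (Fintype.card V : ℤ) * (per π (rep π b) : ℤ) else 0 := by
    intro b b'
    have h1 : ∀ x, w b x * w b' x =
        ∑ y with cl π y = b, ∑ y' with cl π y' = b', T x y * T x y' := by
      intro x
      simp only [hw]
      rw [Finset.sum_mul_sum]
    rw [Finset.sum_congr rfl (fun x _ => h1 x), Finset.sum_comm]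
    have h2 : ∀ y ∈ ({y | cl π y = b} : Finset V),
        ∑ x, ∑ y' with cl π y' = b', T x y * T x y' =
          if b = b' then (Fintype.card V : ℤ) else 0 := by
      intro y hy
      simp only [Finset.mem_filter, Finset.mem_univ, true_and] at hy
      rw [Finset.sum_comm, Finset.sum_congr rfl (fun y' _ => hT2 y y'), Finset.sum_sub_distrib,
        ← Finset.mul_sum, h.fix_sum hp b', mul_zero, sub_zero]
      rw [Finset.sum_ite_eq]
      simp only [Finset.mem_filter, Finset.mem_univ, true_and, hy]
    rw [Finset.sum_congr rfl h2, Finset.sum_const, card_cl]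
    split_ifs <;> simp [mul_comm]
  set H : Matrix (Orb π) (Orb π) ℤ := Matrix.of (fun a b => w b (rep π a)) with hH
  set D : Matrix (Orb π) (Orb π) ℤ := Matrix.diagonal (fun a => (per π (rep π a) : ℤ)) with hD
  have hmat : H.transpose * D * H = (Fintype.card V : ℤ) • D := by
    ext b b'
    rw [Matrix.mul_assoc, Matrix.mul_apply]
    have h1 : ∀ a, H.transpose b a * (D * H) a b' =
        (per π (rep π a) : ℤ) * (w b (rep π a) * w b' (rep π a)) := by
      intro a
      rw [hD, Matrix.diagonal_mul]
      simp only [hH, Matrix.transpose_apply, Matrix.of_apply]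
      ring
    rw [Finset.sum_congr rfl (fun a _ => h1 a),
      ← sum_inv π (fun x => w b x * w b' x) (fun x => by rw [hw1, hw1]), hw2]
    rw [Matrix.smul_apply, hD, Matrix.diagonal_apply]
    split_ifs <;> simp
  have hdet := congrArg Matrix.det hmat
  rw [Matrix.det_mul, Matrix.det_mul, Matrix.det_transpose, Matrix.det_smul] at hdet
  have hD0 : D.det ≠ 0 := by
    rw [hD, Matrix.det_diagonal]
    apply Finset.prod_ne_zero_iff.2
    intro a _
    have := per_pos π (rep π a)
    exact_mod_cast this.ne'
  refine ⟨H.det, ?_⟩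
  apply mul_right_cancel₀ hD0
  linear_combination hdet

lemma card_orb_even {q : ℕ} [Fact q.Prime] (h4 : Fintype.card V % 4 = 1)
    (hodd : Odd (padicValNat q (Fintype.card V))) : Even (Fintype.card (Orb π)) := by
  obtain ⟨p, hp⟩ := h.exists_fixed h4
  obtain ⟨d, hd⟩ := h.det_sq hp
  have h1 : d.natAbs ^ 2 = (Fintype.card V) ^ (Fintype.card (Orb π)) := by
    have := congrArg Int.natAbs hd
    rw [Int.natAbs_pow, Int.natAbs_pow] at this
    simpa using this
  have hV : Fintype.card V ≠ 0 := by omega
  have hd0 : d.natAbs ≠ 0 := by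
    intro h0
    rw [h0] at h1
    have h2 : (0 : ℕ) = (Fintype.card V) ^ (Fintype.card (Orb π)) := by simpa using h1
    exact (pow_ne_zero _ hV) h2.symm
  have h2 := congrArg (padicValNat q) h1
  rw [padicValNat.pow, padicValNat.pow] at h2
  by_contra hne
  rw [Nat.not_even_iff_odd] at hne
  have h3 := hne.mul hodd
  rw [← h2] at h3
  rw [Nat.odd_iff] at h3
  omega

end SC

end H732R2.SCG
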