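import Pool.Agent.H732R2.SCG.DetA

/-!
The twisted determinant: `n ^ (number of cycles of length divisible by 8)` is a norm
`star d * d` in any commutative star ring without 2-torsion containing `ζ` with `ζ ^ 4 = -1`,
`star ζ = - ζ`.
-/

namespace H732R2.SCG

open Equiv.Perm Finset

set_option linter.unusedSectionVars false

variable {V : Type*} [Fintype V] [DecidableEq V]

/-- Cycles of length divisible by 8. -/
abbrev Orb8 (π : Equiv.Perm V) : Type _ := {a : Orb π // 8 ∣ per π (rep π a)}

noncomputable instance instFintypeOrb8 (π : Equiv.Perm V) : Fintype (Orb8 π) := Fintype.ofFinite _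
noncomputable instance instDecEqOrb8 (π : Equiv.Perm V) : DecidableEq (Orb8 π) := Classical.decEq _

lemma zeta_pow_eq_one_iff {L : Type*} [CommRing L] (hL : ∀ v : L, v = -v → v = 0) [Nontrivial L]
    {ζ : Lˣ} (hζ : ζ ^ 4 = -1) (l : ℕ) : ζ ^ l = 1 ↔ 8 ∣ l := by
  have h8 : ζ ^ 8 = 1 := by
    have : ζ ^ 8 = (ζ ^ 4) ^ 2 := by rw [← pow_mul]
    rw [this, hζ]; simp
  have hne : (ζ ^ 4) ≠ 1 := by
    intro h1
    rw [hζ] at h1
    have h2 : (1 : L) = - 1 := by
      have := congrArg (fun u : Lˣ => (u : L)) h1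
      simpa using this.symm
    exact one_ne_zero (hL 1 h2)
  constructor
  · intro h
    by_contra hnd
    have h3 : ζ ^ (l % 8) = 1 := by
      have : ζ ^ l = ζ ^ (8 * (l / 8) + l % 8) := by rw [Nat.div_add_mod]
      rw [this, pow_add, pow_mul, h8, one_pow, one_mul] at h
      exact h
    have h4 : l % 8 ≠ 0 := fun h0 => hnd (Nat.dvd_of_mod_eq_zero h0)
    have h5 : l % 8 < 8 := Nat.mod_lt _ (by norm_num)
    apply hne
    generalize l % 8 = r at h3 h4 h5
    have e : ∀ k q : ℕ, r * k = 8 * q + 4 → ζ ^ 4 = 1 := by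
      intro k q hkq
      have h6 : ζ ^ (r * k) = 1 := by rw [pow_mul, h3, one_pow]
      rw [hkq, pow_add, pow_mul, h8, one_pow, one_mul] at h6
      exact h6
    interval_cases r
    · exact absurd rfl h4
    · exact e 4 0 rfl
    · exact e 2 0 rfl
    · exact e 4 1 rfl
    · exact e 1 0 rfl
    · exact e 4 2 rfl
    · exact e 2 1 rfl
    · exact e 4 3 rfl
  · rintro ⟨k, rfl⟩
    rw [pow_mul, h8, one_pow]

namespace SC

variable {π : Equiv.Perm V} {M : V → V → ℤ} (h : SC π M)
variable {L : Type*} [CommRing L] [Nontrivial L] (hL : ∀ v : L, v = -v → v = 0)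

include h hL

/-- An eigenfunction with eigenvalue a primitive 8th root of unity vanishes on the cycles whose
length is not divisible by 8. -/
lemma vanish {κ : L} (hκ : κ ^ 4 = -1) {v : V → L} (hv : ∀ x, v (π x) = κ * v x) {x : V}
    (hx : ¬ 8 ∣ per π x) : v x = 0 := by
  apply hL
  rcases h.per_cases x with h1 | ⟨k, hk⟩
  · have h2 : (π ^ 4) x = x := (pow_eq_self_iff π).2 (by rw [h1]; norm_num)
    have h3 := iter_mul π hv 4 x
    rw [h2, hκ] at h3
    linear_combination h3
  · have hodd : Odd k := by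
      rw [← Nat.not_even_iff_odd]
      rintro ⟨m, hm⟩
      exact hx ⟨m, by omega⟩
    have h2 : (π ^ (4 * k)) x = x := (pow_eq_self_iff π).2 (by rw [hk])
    have h3 := iter_mul π hv (4 * k) x
    rw [h2, pow_mul, hκ, hodd.neg_one_pow] at h3
    linear_combination h3

variable [StarRing L] (ζ : Lˣ) (hζ : ζ ^ 4 = -1) (hstar : star (ζ : L) = -(ζ : L))

include hζ hstar

theorem norm_det : ∃ d : L, star d * d = (Fintype.card V : L) ^ (Fintype.card (Orb8 π)) := by
  classical
  have hζL : (ζ : L) ^ 4 = -1 := by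
    have := congrArg (fun u : Lˣ => (u : L)) hζ
    simpa using this
  have hstarI : ∀ m : ℤ, star (m : L) = (m : L) := fun m => by simp
  set χ : V → L := fun x => tw π ζ x with hχ
  set χ' : V → L := fun x => tw π ζ⁻¹ x with hχ'
  have hχ1 : ∀ x, χ (π x) = (ζ : L) * χ x := fun x => tw_apply π ζ x
  have hχ'1 : ∀ x, χ' (π x) = ((ζ⁻¹ : Lˣ) : L) * χ' x := fun x => tw_apply π ζ⁻¹ x
  have hχχ : ∀ x, χ' x * χ x = if 8 ∣ per π x then (1 : L) else 0 := by
    intro x
    have h1 := tw_mul_inv π ζ x
    simp only [zeta_pow_eq_one_iff hL hζ] at h1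
    convert h1 using 2
  have hχ0 : ∀ x, ¬ 8 ∣ per π x → χ x = 0 := fun x hx => h.vanish hL hζL hχ1 hx
  have hκ : (-(ζ : L)) ^ 4 = -1 := by rw [← hζL]; ring
  have hinvstar : star ((ζ⁻¹ : Lˣ) : L) * (-(ζ : L)) = 1 := by
    rw [← hstar, ← star_mul', ← Units.val_mul]
    simp
  -- row vectors
  set v : Orb π → V → L := fun b x => ∑ y with cl π y = b, (M x y : L) * χ y with hv
  have hv1 : ∀ b x, v b (π x) = (-(ζ : L)) * v b x := by
    intro b x
    simp only [hv]
    rw [← sum_cl_apply π b (fun y => (M (π x) y : L) * χ y), Finset.mul_sum]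
    refine Finset.sum_congr rfl (fun y _ => ?_)
    rw [h.anti, hχ1]
    push_cast
    ring
  have hv0 : ∀ b x, ¬ 8 ∣ per π x → v b x = 0 := fun b x hx => h.vanish hL hκ (hv1 b) hx
  have hva0 : ∀ a x, ¬ 8 ∣ per π (rep π a) → v a x = 0 := by
    intro a x ha
    simp only [hv]
    apply Finset.sum_eq_zero
    intro y hy
    simp only [Finset.mem_filter, Finset.mem_univ, true_and] at hy
    rw [hχ0 y, mul_zero]
    rwa [per_of_cl π (show cl π y = cl π (rep π a) by rw [hy, cl_rep])]
  set u : Orb π → V → L := fun b x => star (χ' x) * v b x with hu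
  have hu1 : ∀ b x, u b (π x) = u b x := by
    intro b x
    simp only [hu]
    rw [hv1, hχ'1, star_mul']
    linear_combination (star (χ' x) * v b x) * hinvstar
  have hvu : ∀ b x, v b x = star (χ x) * u b x := by
    intro b x
    simp only [hu]
    by_cases hx : 8 ∣ per π x
    · have h1 := hχχ x
      rw [if_pos hx] at h1
      have h2 : star (χ x) * star (χ' x) = 1 := by
        rw [← star_mul, h1, star_one]
      linear_combination (-(v b x)) * h2
    · rw [hv0 b x hx]; ring
  -- sum of χ over a cycle is zero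
  have hχsum : ∀ b : Orb π, ∑ y with cl π y = b, χ y = 0 := by
    intro b
    have h1 := sum_cl_apply π b χ
    simp only [hχ1, ← Finset.mul_sum] at h1
    set s := ∑ y with cl π y = b, χ y with hs
    apply hL
    have h2 : s = (ζ : L) ^ 4 * s := by
      have e1 : (ζ : L) ^ 4 * s = (ζ : L) ^ 3 * ((ζ : L) * s) := by ring
      have e2 : (ζ : L) ^ 3 * s = (ζ : L) ^ 2 * ((ζ : L) * s) := by ring
      have e3 : (ζ : L) ^ 2 * s = (ζ : L) * ((ζ : L) * s) := by ring
      rw [e1, h1, e2, h1, e3, h1, h1]
    rw [hζL] at h2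
    linear_combination h2
  -- applying M twice
  have hMv : ∀ b z, ∑ x, (M z x : L) * v b x =
      if cl π z = b then (Fintype.card V : L) * χ z else 0 := by
    intro b z
    simp only [hv, Finset.mul_sum]
    rw [Finset.sum_comm]
    have h1 : ∀ y, ∑ x, (M z x : L) * ((M x y : L) * χ y) =
        (if z = y then (Fintype.card V : L) * χ y else 0) - χ y := by
      intro y
      have h2 : ∑ x, (M z x : L) * ((M x y : L) * χ y) = ((∑ x, M z x * M x y : ℤ) : L) * χ y := by
        push_cast
        rw [Finset.sum_mul]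
        exact Finset.sum_congr rfl (fun x _ => by ring)
      rw [h2, h.sq]
      split_ifs <;> push_cast <;> ring
    rw [Finset.sum_congr rfl (fun y _ => h1 y), Finset.sum_sub_distrib, hχsum, sub_zero,
      Finset.sum_ite_eq]
    simp only [Finset.mem_filter, Finset.mem_univ, true_and]
  -- expansion over cycles
  have hexp : ∀ b z, ∑ x, (M z x : L) * v b x = ∑ a : Orb8 π, star (v a.1 z) * u b (rep π a.1) := by
    intro b z
    rw [sum_cl π]
    have h1 : ∀ a : Orb π, ∑ x with cl π x = a, (M z x : L) * v b x =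
        star (v a z) * u b (rep π a) := by
      intro a
      simp only [hv]
      rw [star_sum, Finset.sum_mul]
      refine Finset.sum_congr rfl (fun x hx => ?_)
      simp only [Finset.mem_filter, Finset.mem_univ, true_and] at hx
      have h2 : u b x = u b (rep π a) := inv_of_cl π (hu1 b) (by rw [hx, cl_rep])
      have h3 := hvu b x
      simp only [hv] at h3
      rw [h3, h2, star_mul, hstarI]
      ring
    rw [Finset.sum_congr rfl (fun a _ => h1 a)]
    have h2 := Finset.sum_subtype (F := instFintypeOrb8 π)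
      (Finset.univ.filter (fun a : Orb π => 8 ∣ per π (rep π a)))
      (p := fun a : Orb π => 8 ∣ per π (rep π a)) (by simp)
      (fun a : Orb π => star (v a z) * u b (rep π a))
    rw [← h2]
    symm
    apply Finset.sum_filter_of_ne
    intro a _ hne
    by_contra hnd
    exact hne (by rw [hva0 a z hnd]; simp)
  set B : Matrix (Orb8 π) (Orb8 π) L := Matrix.of (fun a b => u b.1 (rep π a.1)) with hB
  have hmat : ((starRingEnd L).mapMatrix B) * B = (Fintype.card V : L) • (1 : Matrix _ _ L) := by
    ext c b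
    rw [Matrix.mul_apply]
    have h1 : ∀ a : Orb8 π, ((starRingEnd L).mapMatrix B) c a * B a b =
        χ' (rep π c.1) * (star (v a.1 (rep π c.1)) * u b.1 (rep π a.1)) := by
      intro a
      simp only [hB, RingHom.mapMatrix_apply, Matrix.map_apply, Matrix.of_apply, hu,
        starRingEnd_apply, star_mul, star_star]
      ring
    rw [Finset.sum_congr rfl (fun a _ => h1 a), ← Finset.mul_sum, ← hexp, hMv, cl_rep,
      Matrix.smul_apply, Matrix.one_apply]
    by_cases hcb : c = b
    · rw [if_pos (congrArg Subtype.val hcb), if_pos hcb]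
      have h2 := hχχ (rep π c.1)
      rw [if_pos c.2] at h2
      rw [smul_eq_mul]
      linear_combination (Fintype.card V : L) * h2
    · rw [if_neg (fun h' => hcb (Subtype.ext h')), if_neg hcb]
      simp
  have hdet := congrArg Matrix.det hmat
  rw [Matrix.det_mul, ← RingHom.map_det, Matrix.det_smul, Matrix.det_one, mul_one] at hdet
  exact ⟨B.det, hdet⟩

end SC

end H732R2.SCG
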