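import Pool.Agent.H732R2.SCG.Padic

/-!
From a self-complementary strongly regular graph to the Seidel matrix data.
-/

namespace H732R2.SCG

open Finset

set_option linter.unusedSectionVars false

variable {V : Type*} [Fintype V] [DecidableEq V]

/-- The Seidel matrix (sign convention: `1` on edges). -/
def seidel (G : SimpleGraph V) [DecidableRel G.Adj] (x y : V) : ℤ :=
  if x = y then 0 else if G.Adj x y then 1 else -1

lemma seidel_eq (G : SimpleGraph V) [DecidableRel G.Adj] (x y : V) :
    seidel G x y = 2 * (if G.Adj x y then 1 else 0) + (if y = x then 1 else 0) - 1 := by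
  unfold seidel
  by_cases h : x = y
  · subst h
    simp
  · rw [if_neg h, if_neg (Ne.symm h)]
    split_ifs <;> norm_num

lemma seidel_comm (G : SimpleGraph V) [DecidableRel G.Adj] (x y : V) :
    seidel G x y = seidel G y x := by
  unfold seidel
  simp only [eq_comm (a := x) (b := y), G.adj_comm x y]

lemma seidel_anti (G : SimpleGraph V) [DecidableRel G.Adj] (e : G ≃g Gᶜ) (x y : V) :
    seidel G (e x) (e y) = - seidel G x y := by
  unfold seidel
  by_cases h : x = y
  · subst h
    simp
  · have hne : e x ≠ e y := fun h' => h (e.injective h')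
    have h1 : Gᶜ.Adj (e x) (e y) ↔ G.Adj x y := e.map_adj_iff
    rw [SimpleGraph.compl_adj] at h1
    rw [if_neg h, if_neg hne]
    by_cases h2 : G.Adj x y
    · rw [if_pos h2, if_neg (h1.2 h2).2]
    · have h3 : G.Adj (e x) (e y) := by
        by_contra h4
        exact h2 (h1.1 ⟨hne, h4⟩)
      rw [if_neg h2, if_pos h3]
      norm_num

theorem sc_of_graph (G : SimpleGraph V) [DecidableRel G.Adj] {d l m : ℕ}
    (hG : G.IsSRGWith (Fintype.card V) d l m) (e : G ≃g Gᶜ) :
    SC (V := V) e.toEquiv (seidel G) := by
  have hdeg : ∀ x, ∑ z, (if G.Adj x z then (1 : ℤ) else 0) = d := by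
    intro x
    rw [Finset.sum_boole, ← hG.regular x, ← SimpleGraph.card_neighborFinset_eq_degree]
    congr 2
    ext z
    simp
  have hanti : ∀ x y, seidel G (e.toEquiv x) (e.toEquiv y) = - seidel G x y := seidel_anti G e
  have hrow : ∀ x, ∑ y, seidel G x y = 2 * d + 1 - Fintype.card V := by
    intro x
    simp only [seidel_eq]
    rw [Finset.sum_sub_distrib, Finset.sum_add_distrib, ← Finset.mul_sum, hdeg,
      Finset.sum_ite_eq' Finset.univ x, if_pos (Finset.mem_univ _)]
    simp
  have hsum : ∀ x, ∑ y, seidel G x y = 0 := by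
    intro x
    have h1 : ∑ y, seidel G (e.toEquiv x) y = - ∑ y, seidel G x y := by
      rw [← Equiv.sum_comp e.toEquiv (fun y => seidel G (e.toEquiv x) y), ← Finset.sum_neg_distrib]
      exact Finset.sum_congr rfl (fun y _ => hanti x y)
    rw [hrow, hrow] at h1
    rw [hrow]
    linarith
  have hoff : ∀ x y, x ≠ y → seidel G x y ^ 2 = 1 := by
    intro x y hxy
    unfold seidel
    rw [if_neg hxy]
    split_ifs <;> norm_num
  have hdiag : ∀ x, seidel G x x = 0 := fun x => by simp [seidel]
  have hN : ∀ x y, x ≠ y → ∑ z, seidel G x z * seidel G z y =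
      4 * (Fintype.card (G.commonNeighbors x y)) + 4 * (if G.Adj x y then 1 else 0) - 4 * d - 2
        + Fintype.card V := by
    intro x y hxy
    have h1 : ∀ z, seidel G x z * seidel G z y =
        4 * (if z ∈ G.commonNeighbors x y then (1 : ℤ) else 0)
        + (if z = y then 2 * (if G.Adj x y then (1 : ℤ) else 0) else 0)
        + (if z = x then 2 * (if G.Adj x y then (1 : ℤ) else 0) else 0)
        - 2 * (if G.Adj x z then (1 : ℤ) else 0) - 2 * (if G.Adj y z then (1 : ℤ) else 0)
        - (if z = x then 1 else 0) - (if z = y then 1 else 0) + 1 := by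
      intro z
      rw [seidel_comm G z y, seidel_eq, seidel_eq]
      simp only [SimpleGraph.mem_commonNeighbors]
      by_cases hzx : z = x
      · subst hzx
        have h5 : G.Adj y z ↔ G.Adj z y := G.adj_comm y z
        by_cases h2 : G.Adj z y
        · simp [h2, h5.2 h2, hxy]
        · have h6 : ¬ G.Adj y z := fun h' => h2 (h5.1 h')
          simp [h2, h6, hxy]
      · by_cases hzy : z = y
        · subst hzy
          simp [hzx]
        · simp only [if_neg hzx, if_neg hzy]
          by_cases h2 : G.Adj x z <;> by_cases h3 : G.Adj y z <;> simp [h2, h3]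
    rw [Finset.sum_congr rfl (fun z _ => h1 z)]
    have h4 : ∑ z, (if z ∈ G.commonNeighbors x y then (1 : ℤ) else 0) =
        Fintype.card (G.commonNeighbors x y) := by
      rw [Finset.sum_boole, Fintype.card_subtype]
    rw [Finset.sum_add_distrib, Finset.sum_sub_distrib, Finset.sum_sub_distrib,
      Finset.sum_sub_distrib, Finset.sum_sub_distrib, Finset.sum_add_distrib,
      Finset.sum_add_distrib, ← Finset.mul_sum, ← Finset.mul_sum, ← Finset.mul_sum, hdeg, hdeg, h4]
    simp only [Finset.sum_ite_eq', Finset.mem_univ, if_true, Finset.sum_const, Finset.card_univ,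
      nsmul_eq_mul, mul_one]
    ring
  have hNanti : ∀ x y, ∑ z, seidel G (e.toEquiv x) z * seidel G z (e.toEquiv y) =
      ∑ z, seidel G x z * seidel G z y := by
    intro x y
    rw [← Equiv.sum_comp e.toEquiv]
    refine Finset.sum_congr rfl (fun z _ => ?_)
    rw [hanti, hanti]
    ring
  have hconst : ∃ a : ℤ, ∀ x y, x ≠ y → ∑ z, seidel G x z * seidel G z y = a := by
    by_cases hV : ∃ x y : V, x ≠ y
    · obtain ⟨x0, y0, h0⟩ := hV
      have hval : ∀ x y, x ≠ y → ∑ z, seidel G x z * seidel G z y =
          if G.Adj x y then 4 * l + 4 - 4 * d - 2 + (Fintype.card V : ℤ)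
          else 4 * m - 4 * d - 2 + (Fintype.card V : ℤ) := by
        intro x y hxy
        rw [hN x y hxy]
        by_cases h1 : G.Adj x y
        · rw [if_pos h1, if_pos h1, hG.of_adj x y h1]
          ring
        · rw [if_neg h1, if_neg h1, hG.of_not_adj hxy h1]
          ring
      have hab : 4 * l + 4 - 4 * d - 2 + (Fintype.card V : ℤ) =
          4 * m - 4 * d - 2 + (Fintype.card V : ℤ) := by
        have h1 := hNanti x0 y0
        have hne : e.toEquiv x0 ≠ e.toEquiv y0 := fun h' => h0 (e.toEquiv.injective h')
        rw [hval _ _ h0, hval _ _ hne] at h1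
        have h2 : Gᶜ.Adj (e.toEquiv x0) (e.toEquiv y0) ↔ G.Adj x0 y0 := e.map_adj_iff
        rw [SimpleGraph.compl_adj] at h2
        by_cases h3 : G.Adj x0 y0
        · rw [if_pos h3, if_neg (h2.2 h3).2] at h1
          exact h1.symm
        · have h4 : G.Adj (e.toEquiv x0) (e.toEquiv y0) := by
            by_contra h4
            exact h3 (h2.1 ⟨hne, h4⟩)
          rw [if_neg h3, if_pos h4] at h1
          exact h1
      refine ⟨4 * m - 4 * d - 2 + (Fintype.card V : ℤ), fun x y hxy => ?_⟩
      rw [hval x y hxy, hab]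
      simp
    · push Not at hV
      exact ⟨0, fun x y hxy => absurd (hV x y) hxy⟩
  obtain ⟨a, ha⟩ := hconst
  have hself : ∀ x, ∑ z, seidel G x z * seidel G z x = (Fintype.card V : ℤ) - 1 := by
    intro x
    have h1 : ∀ z, seidel G x z * seidel G z x = 1 - (if z = x then 1 else 0) := by
      intro z
      by_cases hz : z = x
      · subst hz
        rw [hdiag]; simp
      · rw [if_neg hz, seidel_comm G z x, ← pow_two, hoff x z (Ne.symm hz)]
        ring
    rw [Finset.sum_congr rfl (fun z _ => h1 z), Finset.sum_sub_distrib]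
    simp
  have hrow0 : ∀ x, ∑ y, ∑ z, seidel G x z * seidel G z y = 0 := by
    intro x
    rw [Finset.sum_comm]
    apply Finset.sum_eq_zero
    intro z _
    rw [← Finset.mul_sum, hsum, mul_zero]
  refine ⟨hdiag, hoff, seidel_comm G, hsum, ?_, hanti⟩
  intro x y
  by_cases hxy : x = y
  · subst hxy
    rw [if_pos rfl, hself]
  · rw [if_neg hxy, ha x y hxy]
    have h1 : ∀ y', ∑ z, seidel G x z * seidel G z y' =
        a + (if y' = x then ((Fintype.card V : ℤ) - 1 - a) else 0) := by
      intro y'
      by_cases hy : y' = x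
      · subst hy
        rw [if_pos rfl, hself]; ring
      · rw [if_neg hy, ha x y' (Ne.symm hy), add_zero]
    have h2 := hrow0 x
    rw [Finset.sum_congr rfl (fun y' _ => h1 y'), Finset.sum_add_distrib,
      Finset.sum_ite_eq' Finset.univ x, if_pos (Finset.mem_univ _)] at h2
    simp only [Finset.sum_const, Finset.card_univ, nsmul_eq_mul] at h2
    have h3 : ((Fintype.card V : ℤ) - 1) * (a + 1) = 0 := by linear_combination h2
    have h4 : 1 < Fintype.card V := Fintype.one_lt_card_iff.2 ⟨x, y, hxy⟩
    rcases mul_eq_zero.1 h3 with h5 | h5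
    · exfalso
      have : (1 : ℤ) < Fintype.card V := by exact_mod_cast h4
      linarith
    · linarith

end H732R2.SCG
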