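import Mathlib

/-!
Cycles of a permutation of a finite type, sums over cycles, and twist functions
`χ` with `χ (π x) = ω * χ x`.
-/

namespace H732R2.SCG

open Equiv.Perm Finset

set_option linter.unusedSectionVars false

variable {V : Type*} [Fintype V]

/-- The type of cycles (fixed points included) of a permutation. -/
abbrev Orb (π : Equiv.Perm V) : Type _ := Quotient (SameCycle.setoid π)

noncomputable instance instFintypeOrb (π : Equiv.Perm V) : Fintype (Orb π) := Fintype.ofFinite _
noncomputable instance instDecEqOrb (π : Equiv.Perm V) : DecidableEq (Orb π) := Classical.decEq _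

/-- The class of a point. -/
def cl (π : Equiv.Perm V) (x : V) : Orb π := Quotient.mk _ x

/-- The length of the cycle of a point. -/
noncomputable def per (π : Equiv.Perm V) (x : V) : ℕ := MulAction.period π x

/-- A chosen point of a cycle. -/
noncomputable def rep (π : Equiv.Perm V) (a : Orb π) : V := Quotient.out a

variable (π : Equiv.Perm V)

lemma cl_rep (a : Orb π) : cl π (rep π a) = a := Quotient.out_eq a

lemma cl_eq_iff {x y : V} : cl π x = cl π y ↔ SameCycle π x y := by
  unfold cl
  exact Quotient.eq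

lemma cl_apply (x : V) : cl π (π x) = cl π x := by
  rw [cl_eq_iff]
  exact (sameCycle_apply_left).2 (SameCycle.refl _ _)

lemma zpow_eq_self_iff {x : V} {j : ℤ} : (π ^ j) x = x ↔ (per π x : ℤ) ∣ j :=
  MulAction.zpow_smul_eq_iff_period_dvd (g := π) (a := x)

lemma pow_eq_self_iff {x : V} {j : ℕ} : (π ^ j) x = x ↔ per π x ∣ j :=
  MulAction.pow_smul_eq_iff_period_dvd (m := π) (a := x)

lemma zpow_eq_zpow_iff {x : V} {i j : ℤ} : (π ^ i) x = (π ^ j) x ↔ (per π x : ℤ) ∣ i - j := by
  rw [← zpow_eq_self_iff, sub_eq_neg_add, zpow_add, Equiv.Perm.mul_apply, zpow_neg,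
    Equiv.Perm.inv_eq_iff_eq]

lemma per_pos (x : V) : 0 < per π x := by
  rcases Nat.eq_zero_or_pos (per π x) with h | h
  · exfalso
    have h1 : (π ^ (orderOf π)) x = x := by rw [pow_orderOf_eq_one]; rfl
    rw [pow_eq_self_iff, h] at h1
    have := orderOf_pos π
    omega
  · exact h

lemma per_apply (x : V) : per π (π x) = per π x := by
  apply Nat.dvd_antisymm
  · rw [← pow_eq_self_iff, ← Equiv.Perm.mul_apply, ← pow_succ, pow_succ', Equiv.Perm.mul_apply]
    congr 1
    exact (pow_eq_self_iff π).2 dvd_rfl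
  · rw [← pow_eq_self_iff]
    apply π.injective
    rw [← Equiv.Perm.mul_apply, ← pow_succ', pow_succ, Equiv.Perm.mul_apply]
    exact (pow_eq_self_iff π).2 dvd_rfl

/-- A function with `f (π x) = κ * f x`. -/
lemma iter_mul {R : Type*} [CommMonoid R] {f : V → R} {κ : R} (hf : ∀ x, f (π x) = κ * f x)
    (i : ℕ) (x : V) : f ((π ^ i) x) = κ ^ i * f x := by
  induction i generalizing x with
  | zero => simp
  | succ i ih => rw [pow_succ', Equiv.Perm.mul_apply, hf, ih, pow_succ', mul_assoc]

/-- An invariant function is constant on cycles. -/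
lemma inv_of_cl {α : Type*} {f : V → α} (hf : ∀ x, f (π x) = f x) {x y : V}
    (h : cl π x = cl π y) : f x = f y := by
  rw [cl_eq_iff] at h
  obtain ⟨i, hi⟩ := h.exists_nat_pow_eq
  have : ∀ i : ℕ, ∀ x, f ((π ^ i) x) = f x := by
    intro i
    induction i with
    | zero => intro x; simp
    | succ i ih => intro x; rw [pow_succ', Equiv.Perm.mul_apply, hf, ih]
  rw [← hi, this]

lemma per_of_cl {x y : V} (h : cl π x = cl π y) : per π x = per π y :=
  inv_of_cl π (per_apply π) h

lemma per_rep_cl (x : V) : per π (rep π (cl π x)) = per π x := per_of_cl π (cl_rep π _)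

lemma exists_zpow (x : V) : ∃ i : ℤ, (π ^ i) (rep π (cl π x)) = x := by
  have h : cl π (rep π (cl π x)) = cl π x := cl_rep π _
  rw [cl_eq_iff] at h
  exact h

/-- The exponent of a point relative to the chosen point of its cycle. -/
noncomputable def tt (x : V) : ℤ := Classical.choose (exists_zpow π x)

lemma tt_spec (x : V) : (π ^ (tt π x)) (rep π (cl π x)) = x := Classical.choose_spec (exists_zpow π x)

lemma tt_apply (x : V) : (per π x : ℤ) ∣ tt π (π x) - (tt π x + 1) := by
  rw [← per_rep_cl π x, ← zpow_eq_zpow_iff]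
  have h1 := tt_spec π (π x)
  rw [cl_apply] at h1
  rw [h1, add_comm, zpow_add, Equiv.Perm.mul_apply, tt_spec, zpow_one]

/-- Twist functions: `tw ω (π x) = ω * tw ω x`. -/
noncomputable def tw {R : Type*} [CommRing R] (ω : Rˣ) (x : V) : R :=
  open Classical in if ω ^ (per π x) = 1 then ((ω ^ (tt π x) : Rˣ) : R) else 0

variable {R : Type*} [CommRing R]

lemma tw_apply (ω : Rˣ) (x : V) : tw π ω (π x) = (ω : R) * tw π ω x := by
  unfold tw
  rw [per_apply]
  split_ifs with h
  · rw [← Units.val_mul]
    congr 1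
    obtain ⟨k, hk⟩ := tt_apply π x
    have : tt π (π x) = (per π x : ℤ) * k + 1 + tt π x := by linarith
    rw [this, zpow_add, zpow_add, zpow_mul, zpow_natCast, h]
    simp
  · simp

lemma tw_mul_inv (ω : Rˣ) (x : V) : tw π ω⁻¹ x * tw π ω x =
    open Classical in if ω ^ (per π x) = 1 then (1 : R) else 0 := by
  unfold tw
  have : (ω⁻¹ ^ (per π x) = 1) ↔ (ω ^ (per π x) = 1) := by
    rw [inv_pow, inv_eq_one]
  by_cases h : ω ^ (per π x) = 1
  · rw [if_pos (this.2 h), if_pos h, if_pos h, ← Units.val_mul]
    simp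
  · rw [if_neg (fun h' => h (this.1 h')), if_neg h, if_neg h]
    simp

/-- Sum over a type, cycle by cycle. -/
lemma sum_cl {M : Type*} [AddCommMonoid M] (f : V → M) :
    ∑ x, f x = ∑ a : Orb π, ∑ x with cl π x = a, f x :=
  (Finset.sum_fiberwise (Finset.univ) (cl π) f).symm

lemma card_cl (a : Orb π) : #{x | cl π x = a} = per π (rep π a) := by
  classical
  have h1 : ({x | cl π x = a} : Finset V) =
      (Finset.range (per π (rep π a))).image (fun i => (π ^ i) (rep π a)) := by
    ext x
    simp only [Finset.mem_filter, Finset.mem_univ, true_and, Finset.mem_image, Finset.mem_range]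
    constructor
    · intro h
      rw [← cl_rep π a, eq_comm, cl_eq_iff] at h
      obtain ⟨i, hi⟩ := h.exists_nat_pow_eq
      refine ⟨i % per π (rep π a), Nat.mod_lt _ (per_pos π _), ?_⟩
      rw [← hi]
      exact MulAction.pow_mod_period_smul (m := π) (a := rep π a) i
    · rintro ⟨i, -, rfl⟩
      have : cl π ((π ^ i) (rep π a)) = cl π (rep π a) := by
        rw [cl_eq_iff]
        exact (sameCycle_pow_left).2 (SameCycle.refl _ _)
      rw [this, cl_rep]
  rw [h1, Finset.card_image_of_injOn, Finset.card_range]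
  intro i hi j hj hij
  simp only [Finset.coe_range, Set.mem_Iio] at hi hj
  have h2 : (π ^ (i : ℤ)) (rep π a) = (π ^ (j : ℤ)) (rep π a) := by
    simpa using hij
  rw [zpow_eq_zpow_iff] at h2
  have h3 := Int.eq_zero_of_abs_lt_dvd h2 (by rw [abs_lt]; constructor <;> omega)
  omega

/-- Summation over a cycle is invariant under `π`. -/
lemma sum_cl_apply {M : Type*} [AddCommMonoid M] (a : Orb π) (f : V → M) :
    ∑ x with cl π x = a, f (π x) = ∑ x with cl π x = a, f x := by
  apply Finset.sum_equiv π
  · intro x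
    simp [cl_apply]
  · intro x _
    rfl

lemma card_eq_sum_per : Fintype.card V = ∑ a : Orb π, per π (rep π a) := by
  have h := sum_cl π (fun _ : V => 1)
  simp only [Finset.sum_const, smul_eq_mul, mul_one] at h
  rw [← Finset.card_univ, h]
  exact Finset.sum_congr rfl (fun a _ => card_cl π a)

end H732R2.SCG
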