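import Pool.Agent.H732R2.SCG.DetC

/-!
`p`-adic part: for `p ≡ 5 mod 8` the form `u ^ 2 - ι w ^ 2` (`ι ^ 2 = -1`) takes only values of
even valuation on the `p`-adic integers.
-/

namespace H732R2.SCG

open Equiv.Perm Finset

lemma exists_iota {p : ℕ} [Fact p.Prime] (hp : p % 8 = 5) : ∃ ι : ℤ_[p], ι ^ 2 = -1 := by
  have h1 : IsSquare (-1 : ZMod p) := by
    rw [ZMod.exists_sq_eq_neg_one_iff]
    omega
  obtain ⟨c, hc⟩ := h1
  obtain ⟨a, rfl⟩ := ZMod.intCast_surjective c
  have h2 : (p : ℤ) ∣ a ^ 2 + 1 := by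
    rw [← ZMod.intCast_zmod_eq_zero_iff_dvd]
    push_cast
    linear_combination -hc
  have h3 : ¬ (p : ℤ) ∣ 2 * a := by
    intro h
    rcases (Nat.prime_iff_prime_int.1 (Fact.out : p.Prime)).dvd_or_dvd h with h4 | h4
    · have := Int.le_of_dvd (by norm_num) h4
      have hp' : 5 ≤ p := by omega
      omega
    · have h5 : (p : ℤ) ∣ 1 := by
        have : (p : ℤ) ∣ a ^ 2 := Dvd.dvd.trans h4 ⟨a, by ring⟩
        exact (Int.dvd_add_right this).1 h2
      have := Int.le_of_dvd (by norm_num) h5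
      omega
  obtain ⟨z, hz, -⟩ := hensels_lemma (p := p) (R := ℤ) (F := Polynomial.X ^ 2 + 1) (a := (a : ℤ_[p]))
    (by
      have e1 : Polynomial.aeval (a : ℤ_[p]) (Polynomial.X ^ 2 + 1 : Polynomial ℤ) =
          ((a ^ 2 + 1 : ℤ) : ℤ_[p]) := by simp
      have e2 : Polynomial.aeval (a : ℤ_[p]) (Polynomial.derivative (Polynomial.X ^ 2 + 1 : Polynomial ℤ)) =
          ((2 * a : ℤ) : ℤ_[p]) := by
        simp
        left
        exact map_ofNat (Polynomial.aeval (a : ℤ_[p])) 2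
      rw [e1, e2]
      have e3 : ‖((2 * a : ℤ) : ℤ_[p])‖ = 1 := by
        rcases lt_or_eq_of_le (PadicInt.norm_le_one ((2 * a : ℤ) : ℤ_[p])) with h4 | h4
        · exact absurd ((PadicInt.norm_int_lt_one_iff_dvd _).1 h4) h3
        · exact h4
      rw [e3, one_pow]
      exact (PadicInt.norm_int_lt_one_iff_dvd _).2 h2)
  refine ⟨z, ?_⟩
  have : z ^ 2 + 1 = 0 := by simpa using hz
  linear_combination this

lemma even_of_form {p : ℕ} [Fact p.Prime] (hp : p % 8 = 5) {ι : ℤ_[p]} (hι : ι ^ 2 = -1) (k : ℕ) :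
    ∀ u w m : ℤ_[p], IsUnit m → u ^ 2 - ι * w ^ 2 = (p : ℤ_[p]) ^ k * m → Even k := by
  induction k using Nat.strong_induction_on with
  | _ k ih =>
  intro u w m hm h
  rcases Nat.eq_zero_or_pos k with hk | hk
  · rw [hk]; exact Even.zero
  have hdvd : ∀ z : ℤ_[p], PadicInt.toZMod z = 0 → (p : ℤ_[p]) ∣ z := by
    intro z hz
    have : z ∈ RingHom.ker (PadicInt.toZMod : ℤ_[p] →+* ZMod p) := hz
    rw [PadicInt.ker_toZMod, PadicInt.maximalIdeal_eq_span_p, Ideal.mem_span_singleton] at this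
    exact this
  have hp0 : (PadicInt.toZMod (p : ℤ_[p]) : ZMod p) = 0 := by simp
  have h1 : (PadicInt.toZMod u) ^ 2 = PadicInt.toZMod ι * (PadicInt.toZMod w) ^ 2 := by
    have := congrArg (PadicInt.toZMod (p := p)) h
    rw [map_sub, map_mul, map_mul, map_pow, map_pow, map_pow, hp0, zero_pow hk.ne', zero_mul] at this
    linear_combination this
  have h2 : (PadicInt.toZMod ι) ^ 2 = (-1 : ZMod p) := by
    rw [← map_pow, hι]; simp
  have hw : PadicInt.toZMod w = 0 := by
    by_contra hw0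
    set z : ZMod p := PadicInt.toZMod u / PadicInt.toZMod w with hz
    have hz2 : z ^ 2 = PadicInt.toZMod ι := by
      rw [hz, div_pow, h1]
      field_simp
    have hz4 : z ^ 4 = -1 := by
      have : z ^ 4 = (z ^ 2) ^ 2 := by ring
      rw [this, hz2, h2]
    have hz0 : z ≠ 0 := by
      intro h0
      rw [h0] at hz4
      have : (1 : ZMod p) = 0 := by linear_combination hz4
      exact one_ne_zero this
    have hF := ZMod.pow_card_sub_one_eq_one hz0
    have hp1 : p - 1 = 4 * (2 * (p / 8) + 1) := by omega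
    rw [hp1, pow_mul, hz4, Odd.neg_one_pow ⟨p / 8, rfl⟩] at hF
    have h3 : ((2 : ℕ) : ZMod p) = 0 := by
      push_cast
      linear_combination -hF
    rw [ZMod.natCast_eq_zero_iff] at h3
    have := Nat.le_of_dvd (by norm_num) h3
    omega
  have hu : PadicInt.toZMod u = 0 := by
    rw [hw] at h1
    have : (PadicInt.toZMod u) ^ 2 = 0 := by rw [h1]; ring
    exact pow_eq_zero_iff (two_ne_zero) |>.1 this
  obtain ⟨u', rfl⟩ := hdvd u hu
  obtain ⟨w', rfl⟩ := hdvd w hw
  have hpne : (p : ℤ_[p]) ≠ 0 := by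
    exact_mod_cast (Fact.out : p.Prime).ne_zero
  rcases Nat.lt_or_ge k 2 with hk2 | hk2
  · have hk1 : k = 1 := by omega
    rw [hk1, pow_one] at h
    have h3 : (p : ℤ_[p]) * (u' ^ 2 - ι * w' ^ 2) = m := by
      apply mul_left_cancel₀ hpne
      linear_combination h
    exfalso
    rw [← h3] at hm
    have h4 := isUnit_of_mul_isUnit_left hm
    exact PadicInt.p_nonunit h4
  · obtain ⟨j, rfl⟩ : ∃ j, k = j + 2 := ⟨k - 2, by omega⟩
    have h3 : u' ^ 2 - ι * w' ^ 2 = (p : ℤ_[p]) ^ j * m := by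
      apply mul_left_cancel₀ (pow_ne_zero 2 hpne)
      linear_combination h
    have := ih j (by omega) u' w' m hm h3
    exact this.add (by norm_num)

/-- If `n ^ c` is a norm `star d * d` from `ℤ_p[√ι]` then `c * v_p(n)` is even. -/
lemma even_of_norm {p : ℕ} [Fact p.Prime] (hp : p % 8 = 5) {ι : ℤ_[p]} (hι : ι ^ 2 = -1)
    {n c : ℕ} (hn : n ≠ 0) (d : QuadraticAlgebra ℤ_[p] ι 0)
    (hd : star d * d = (n : QuadraticAlgebra ℤ_[p] ι 0) ^ c) : Even (c * padicValNat p n) := by
  obtain ⟨n', hn', hnn⟩ : ∃ n', ¬ p ∣ n' ∧ n = p ^ (padicValNat p n) * n' := by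
    refine ⟨n / p ^ (padicValNat p n), ?_, ?_⟩
    · have := Nat.not_dvd_ordCompl (Fact.out : p.Prime) hn
      rwa [Nat.factorization_def n (Fact.out : p.Prime)] at this
    · exact (Nat.mul_div_cancel' pow_padicValNat_dvd).symm
  have h1 : ((n ^ c : ℕ) : ℤ_[p]) = (p : ℤ_[p]) ^ (c * padicValNat p n) * ((n' : ℤ_[p]) ^ c) := by
    conv_lhs => rw [hnn]
    push_cast
    rw [mul_pow, ← pow_mul, mul_comm c]
  have h2 : d.re ^ 2 - ι * d.im ^ 2 = ((n ^ c : ℕ) : ℤ_[p]) := by
    have h3 := congrArg QuadraticAlgebra.re hd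
    rw [QuadraticAlgebra.re_mul, QuadraticAlgebra.re_star, QuadraticAlgebra.im_star,
      ← Nat.cast_pow, QuadraticAlgebra.re_natCast] at h3
    rw [← h3]
    ring
  rw [h1] at h2
  refine even_of_form hp hι _ _ _ _ ?_ h2
  apply IsUnit.pow
  rw [PadicInt.isUnit_iff]
  rcases lt_or_eq_of_le (PadicInt.norm_le_one ((n' : ℤ_[p]))) with h4 | h4
  · have h5 : ‖((n' : ℤ) : ℤ_[p])‖ < 1 := by exact_mod_cast h4
    rw [PadicInt.norm_int_lt_one_iff_dvd] at h5
    exact absurd (Int.natCast_dvd_natCast.1 h5) hn'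
  · exact h4

/-- The main obstruction. -/
theorem SC.main {V : Type*} [Fintype V] [DecidableEq V] {π : Equiv.Perm V} {M : V → V → ℤ}
    (h : SC π M) (h8 : Fintype.card V % 8 = 1) {p : ℕ} (hpp : p.Prime) (hp : p % 8 = 5) :
    Even (padicValNat p (Fintype.card V)) := by
  have : Fact p.Prime := ⟨hpp⟩
  by_contra hne
  rw [Nat.not_even_iff_odd] at hne
  have hO := h.card_orb_even (q := p) (by omega) hne
  have hcount := h.count h8
  have hc : Odd (#{a : Orb π | 8 ∣ per π (rep π a)}) := by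
    rcases Nat.even_or_odd (#{a : Orb π | 8 ∣ per π (rep π a)}) with h1 | h1
    · exact absurd (hO.add h1) (Nat.not_even_iff_odd.2 hcount)
    · exact h1
  have hcard : Fintype.card (Orb8 π) = #{a : Orb π | 8 ∣ per π (rep π a)} := by
    classical
    rw [Fintype.card_subtype]
  obtain ⟨ι, hι⟩ := exists_iota hp
  set L := QuadraticAlgebra ℤ_[p] ι 0 with hLdef
  have hL : ∀ v : L, v = -v → v = 0 := by
    intro v hv
    have h1 := congrArg QuadraticAlgebra.re hv
    have h2 := congrArg QuadraticAlgebra.im hv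
    rw [QuadraticAlgebra.re_neg] at h1
    rw [QuadraticAlgebra.im_neg] at h2
    ext
    · rw [QuadraticAlgebra.re_zero]
      have : (2 : ℤ_[p]) * v.re = 0 := by linear_combination h1
      exact (mul_eq_zero.1 this).resolve_left two_ne_zero
    · rw [QuadraticAlgebra.im_zero]
      have : (2 : ℤ_[p]) * v.im = 0 := by linear_combination h2
      exact (mul_eq_zero.1 this).resolve_left two_ne_zero
  have hω2 : (QuadraticAlgebra.omega : L) ^ 2 = ⟨ι, 0⟩ := by
    rw [pow_two]
    exact QuadraticAlgebra.omega_mul_omega_eq_mk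
  have hω4 : (QuadraticAlgebra.omega : L) ^ 4 = -1 := by
    have h1 : (QuadraticAlgebra.omega : L) ^ 4 = (QuadraticAlgebra.omega ^ 2) ^ 2 := by ring
    rw [h1, hω2, pow_two]
    apply QuadraticAlgebra.ext
    · simp only [QuadraticAlgebra.re_mul, QuadraticAlgebra.re_neg, QuadraticAlgebra.re_one]
      linear_combination hι
    · simp [QuadraticAlgebra.im_one]
  set ζ : Lˣ := ⟨QuadraticAlgebra.omega, -(QuadraticAlgebra.omega ^ 3),
    by linear_combination -hω4, by linear_combination -hω4⟩ with hζdef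
  have hζ : ζ ^ 4 = -1 := by
    ext1
    simp only [Units.val_pow_eq_pow_val, hζdef, Units.val_neg, Units.val_one]
    exact hω4
  have hstar : star (ζ : L) = -(ζ : L) := by
    simp only [hζdef]
    apply QuadraticAlgebra.ext
    · rw [QuadraticAlgebra.re_star, QuadraticAlgebra.re_neg, QuadraticAlgebra.omega_re,
        QuadraticAlgebra.omega_im]
      ring
    · rw [QuadraticAlgebra.im_star, QuadraticAlgebra.im_neg]
  obtain ⟨d, hd⟩ := h.norm_det hL ζ hζ hstar
  have hV : Fintype.card V ≠ 0 := by omega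
  have hev := even_of_norm hp hι hV d hd
  rw [hcard] at hev
  have := hc.mul hne
  exact absurd hev (Nat.not_even_iff_odd.2 this)

end H732R2.SCG
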