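import Pool.Agent.H732R2.SCG.Orb

/-!
Symmetric conference-type matrices with an anti-automorphism: parity of the number of cycles.
-/

namespace H732R2.SCG

open Equiv.Perm Finset

set_option linter.unusedSectionVars false

variable {V : Type*} [Fintype V] [DecidableEq V]

/-- A Seidel matrix `M` of a conference graph, with a permutation `π` reversing all signs. -/
structure SC (π : Equiv.Perm V) (M : V → V → ℤ) : Prop where
  diag : ∀ x, M x x = 0
  off : ∀ x y, x ≠ y → M x y ^ 2 = 1
  symm : ∀ x y, M x y = M y x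
  sum : ∀ x, ∑ y, M x y = 0
  sq : ∀ x y, ∑ z, M x z * M z y = (if x = y then (Fintype.card V : ℤ) else 0) - 1
  anti : ∀ x y, M (π x) (π y) = - M x y

namespace SC

variable {π : Equiv.Perm V} {M : V → V → ℤ} (h : SC π M)

include h

lemma anti_pow (i : ℕ) (x y : V) : M ((π ^ i) x) ((π ^ i) y) = (-1) ^ i * M x y := by
  induction i with
  | zero => simp
  | succ i ih => rw [pow_succ', Equiv.Perm.mul_apply, Equiv.Perm.mul_apply, h.anti, ih]; ring

lemma eq_of_zero {x y : V} (h0 : M x y = 0) : x = y := by
  by_contra hne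
  have := h.off x y hne
  rw [h0] at this
  norm_num at this

lemma per_cases (x : V) : per π x = 1 ∨ 4 ∣ per π x := by
  rcases Nat.even_or_odd' (per π x) with ⟨m, hm | hm⟩
  · right
    have hpos := per_pos π x
    have h1 : (π ^ (2 * m)) x = x := (pow_eq_self_iff π).2 (by rw [hm])
    have h2 := h.anti_pow m x ((π ^ m) x)
    rw [← Equiv.Perm.mul_apply, ← pow_add, ← two_mul, h1, h.symm] at h2
    rcases Nat.even_or_odd m with hmm | hmm
    · obtain ⟨k, hk⟩ := hmm
      exact ⟨k, by omega⟩
    · exfalso
      rw [hmm.neg_one_pow] at h2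
      have h3 : M x ((π ^ m) x) = 0 := by linarith
      have h4 := h.eq_of_zero h3
      have h5 := (pow_eq_self_iff π).1 h4.symm
      have := Nat.le_of_dvd (by omega) h5
      omega
  · left
    have h1 : (π ^ (2 * m + 1)) x = x := (pow_eq_self_iff π).2 (by rw [hm])
    have h2 := h.anti_pow (2 * m + 1) x (π x)
    have h1' : (π ^ (2 * m + 1)) (π x) = π x := by
      rw [← Equiv.Perm.mul_apply, ← pow_succ, pow_succ', Equiv.Perm.mul_apply, h1]
    rw [h1, h1', Odd.neg_one_pow ⟨m, rfl⟩] at h2
    have h3 : M x (π x) = 0 := by linarith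
    have h4 := h.eq_of_zero h3
    have h5 := (pow_eq_self_iff π (x := x) (j := 1)).1 (by simpa using h4.symm)
    exact Nat.dvd_one.1 h5

lemma fixed_iff (x : V) : π x = x ↔ per π x = 1 := by
  rw [← Nat.dvd_one, ← pow_eq_self_iff, pow_one]

lemma fixed_unique {x y : V} (hx : π x = x) (hy : π y = y) : x = y := by
  have := h.anti x y
  rw [hx, hy] at this
  exact h.eq_of_zero (by linarith)

lemma exists_fixed (hodd : Fintype.card V % 4 = 1) : ∃ x, π x = x := by
  by_contra hno
  push Not at hno
  have h1 : ∀ a : Orb π, 4 ∣ per π (rep π a) := by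
    intro a
    rcases h.per_cases (rep π a) with h1 | h1
    · exact absurd ((h.fixed_iff _).2 h1) (hno _)
    · exact h1
  have h2 : 4 ∣ Fintype.card V := by
    rw [card_eq_sum_per π]
    exact Finset.dvd_sum (fun a _ => h1 a)
  omega

/-- Number of cycles of length divisible by 8. -/
lemma count (h8 : Fintype.card V % 8 = 1) :
    Odd (Fintype.card (Orb π) + #{a : Orb π | 8 ∣ per π (rep π a)}) := by
  classical
  obtain ⟨p, hp⟩ := h.exists_fixed (by omega)
  have hperp : per π p = 1 := (h.fixed_iff p).1 hp
  have key : ∀ a : Orb π, ((per π (rep π a) : ℕ) : ZMod 8) =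
      4 * (1 + (if 8 ∣ per π (rep π a) then 1 else 0)) - (if a = cl π p then 3 else 0) := by
    intro a
    by_cases ha : a = cl π p
    · have : per π (rep π a) = 1 := by rw [ha, per_rep_cl, hperp]
      rw [this, if_neg (by norm_num), if_pos ha]
      decide
    · rw [if_neg ha]
      have hne : per π (rep π a) ≠ 1 := by
        intro h1
        have h2 := (h.fixed_iff _).2 h1
        have h3 := h.fixed_unique h2 hp
        apply ha
        rw [← cl_rep π a, h3]
      rcases h.per_cases (rep π a) with h1 | ⟨k, hk⟩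
      · exact absurd h1 hne
      · rw [hk]
        rcases Nat.even_or_odd' k with ⟨m, hm | hm⟩
        · rw [hm, if_pos ⟨m, by ring⟩]
          push_cast
          have h8 : (8 : ZMod 8) = 0 := by decide
          linear_combination (m - 1 : ZMod 8) * h8
        · rw [hm, if_neg (by omega)]
          push_cast
          have h8 : (8 : ZMod 8) = 0 := by decide
          linear_combination (m : ZMod 8) * h8
  have hsum : ((Fintype.card V : ℕ) : ZMod 8) =
      4 * (Fintype.card (Orb π) + #{a : Orb π | 8 ∣ per π (rep π a)}) - 3 := by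
    rw [card_eq_sum_per π]
    push_cast
    rw [Finset.sum_congr rfl (fun a _ => key a), Finset.sum_sub_distrib, ← Finset.mul_sum,
      Finset.sum_add_distrib, Finset.sum_ite_eq' Finset.univ (cl π p), if_pos (Finset.mem_univ _)]
    simp
  have h1 : ((Fintype.card V : ℕ) : ZMod 8) = 1 := by
    have : ((Fintype.card V : ℕ) : ZMod 8) = ((1 : ℕ) : ZMod 8) := by
      rw [ZMod.natCast_eq_natCast_iff']
      omega
    simpa using this
  rw [h1] at hsum
  rw [← Nat.not_even_iff_odd]
  rintro ⟨k, hk⟩
  have h2 : ((Fintype.card (Orb π) : ZMod 8) + (#{a : Orb π | 8 ∣ per π (rep π a)} : ZMod 8)) = k + k := by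
    exact_mod_cast congrArg (Nat.cast (R := ZMod 8)) hk
  rw [h2] at hsum
  have h8 : (8 : ZMod 8) = 0 := by decide
  have h3 : (1 : ZMod 8) = -3 := by linear_combination hsum + (k : ZMod 8) * h8
  exact absurd h3 (by decide)

end SC

end H732R2.SCG
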